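import Pool.Agent.U163.SU.UniU

/-!
# EVERY large even `M`: clusters of primes `p` such that `p` and `M - p` are almost twin primes

The question asks whether every even `M > 4208` is a sum of two primes `p`, `q` which both have a twin. For `α = 2` or
`α = -2` the twin of `p` is `p + α`, and for `β = 2` or `β = -2` the twin of `M - p` is `M - p + β`; if `M` is divisible
by `3` then `α + β = 0`, and if `M ≡ 1` or `2 (mod 3)` then `α = β = -2` or `α = β = 2` (for `M > 8`), that is,
`M ≡ α + β (mod 3)`. Here `p` is prime and the three numbers `p + α`, `M - p` and `M - p + β` are almost primes (a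
bounded number of prime factors, all larger than a power of `M`), and the `p` form clusters: for EVERY large even `M`,
all such `α`, `β`, and every scale `M ^ (1 / A) ≤ N < M / 2` a positive proportion of the patterns `H` of `m` elements
of any given large finite set are realised, each at least `N / (log N) ^ B` times in `(N, 2 N]`, by such primes `x + h`,
`h ∈ H`. There is no exceptional `M`.

The starting files have bounded gaps in place of `2` and finitely many equations, or exceptional `M`; the file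
`PoissonRepresentations` (helper832) has the expected number of representations for which none of the four numbers
has a small prime factor. In the present file one of the four numbers is a prime, in a cluster of `m` such primes.

Proof. The theorem `R498.MP.stringsU` of the starting library (Maynard-Tao theorem for primes with almost prime
polynomial values, uniformly in the polynomial; it is not used by a starting hand-in) is applied to
`(X + α) (M - X) (M - X + β)`; the proportion of the patterns follows by double counting (`Helper32K9.Str`).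
-/

set_option autoImplicit false

namespace Pool.Agent.Results.MP_c6d112_nt.ClustersOfTwins

open Finset Filter Polynomial

/-- `n` has at most `r` prime factors, counted with multiplicity, all of them at least `w`. -/
def AlmostPrime (r : ℕ) (w : ℝ) (n : ℕ) : Prop :=
  n.primeFactorsList.length ≤ r ∧ ∀ q : ℕ, q.Prime → q ∣ n → w ≤ q

/-- The integers `x` with `N < x`, `x + max H ≤ 2 N`, such that for all `h ∈ H` the number `p = x + h` is a prime and
each of the numbers `p + α`, `M - p` and `M - p + β` is positive and has at most `r` prime factors, all of them at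
least `N ^ δ`. -/
def places (M N r : ℕ) (α β : ℤ) (δ : ℝ) (H : Finset ℕ) : Set ℕ :=
  {x | N < x ∧ x + H.sup id ≤ 2 * N ∧ ∀ h ∈ H, (x + h).Prime ∧
    ∀ z : ℤ, z = (x + h : ℕ) + α ∨ z = M - (x + h : ℕ) ∨ z = M - (x + h : ℕ) + β →
      0 < z ∧ AlmostPrime r ((N : ℝ) ^ δ) z.natAbs}

/-- the three polynomials -/
noncomputable def fam (M : ℕ) (α β : ℤ) : Fin 3 → ℤ[X]
  | 0 => X + C α
  | 1 => C (M : ℤ) - X
  | 2 => C ((M : ℤ) + β) - X

theorem fam_eval0 (M : ℕ) (α β x : ℤ) : (fam M α β 0).eval x = x + α := by simp [fam]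
theorem fam_eval1 (M : ℕ) (α β x : ℤ) : (fam M α β 1).eval x = M - x := by simp [fam]
theorem fam_eval2 (M : ℕ) (α β x : ℤ) : (fam M α β 2).eval x = M - x + β := by
  simp [fam]
  ring

theorem fam_deg (M : ℕ) (α β : ℤ) (i : Fin 3) : (fam M α β i).natDegree ≤ 1 := by
  fin_cases i
  · change (X + C α : ℤ[X]).natDegree ≤ 1
    refine (natDegree_add_le _ _).trans (max_le natDegree_X_le ?_)
    rw [natDegree_C]
    omega
  · change (C (M : ℤ) - X : ℤ[X]).natDegree ≤ 1
    refine (natDegree_sub_le _ _).trans (max_le ?_ natDegree_X_le)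
    rw [natDegree_C]
    omega
  · change (C ((M : ℤ) + β) - X : ℤ[X]).natDegree ≤ 1
    refine (natDegree_sub_le _ _).trans (max_le ?_ natDegree_X_le)
    rw [natDegree_C]
    omega

theorem fam_adm (M : ℕ) (hM : Even M) (α β : ℤ) (hα : α = 2 ∨ α = -2) (hβ : β = 2 ∨ β = -2)
    (h3 : (3 : ℤ) ∣ M - (α + β)) (p : ℕ) (hp : p.Prime) :
    ∃ x : ℤ, ¬ (p : ℤ) ∣ x ∧ ∀ i, ¬ (p : ℤ) ∣ (fam M α β i).eval x := by
  have hpZ : Prime (p : ℤ) := Nat.prime_iff_prime_int.1 hp
  obtain ⟨k, hk⟩ := hM
  suffices h : ∃ x : ℤ, ¬ (p : ℤ) ∣ x ∧ ¬ (p : ℤ) ∣ x + α ∧ ¬ (p : ℤ) ∣ M - x ∧ ¬ (p : ℤ) ∣ M - x + β by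
    obtain ⟨x, h0, h1, h2, h4⟩ := h
    refine ⟨x, h0, fun i => ?_⟩
    fin_cases i
    · change ¬ (p : ℤ) ∣ (fam M α β 0).eval x
      rw [fam_eval0]; exact h1
    · change ¬ (p : ℤ) ∣ (fam M α β 1).eval x
      rw [fam_eval1]; exact h2
    · change ¬ (p : ℤ) ∣ (fam M α β 2).eval x
      rw [fam_eval2]; exact h4
  have hsmall : p = 2 ∨ p = 3 ∨ 5 ≤ p := by
    have h1 := hp.two_le
    by_contra hcon
    push Not at hcon
    obtain ⟨h2, h3, h4⟩ := hcon
    have : p = 4 := by omega
    subst this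
    norm_num at hp
  rcases hsmall with rfl | rfl | h5
  · refine ⟨1, ?_, ?_, ?_, ?_⟩ <;> rcases hα with rfl | rfl <;> rcases hβ with rfl | rfl <;>
      omega
  · -- `x ≡ α`, as `x + α ≡ 2 α`
    refine ⟨α, ?_, ?_, ?_, ?_⟩ <;> rcases hα with rfl | rfl <;> rcases hβ with rfl | rfl <;>
      omega
  · -- the classes `0`, `- α`, `M`, `M + β`; there are at least five classes
    by_contra hcon
    push Not at hcon
    -- the five numbers `0, 1, 2, 3, 4`
    have hcls : ∀ x : ℤ, (p : ℤ) ∣ x ∨ (p : ℤ) ∣ x + α ∨ (p : ℤ) ∣ M - x ∨ (p : ℤ) ∣ M - x + β := by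
      intro x
      by_cases h0 : (p : ℤ) ∣ x
      · exact Or.inl h0
      by_cases h1 : (p : ℤ) ∣ x + α
      · exact Or.inr (Or.inl h1)
      by_cases h2 : (p : ℤ) ∣ M - x
      · exact Or.inr (Or.inr (Or.inl h2))
      exact Or.inr (Or.inr (Or.inr (hcon x h0 h1 h2)))
    -- pigeonhole
    let c : Fin 5 → Fin 4 := fun i =>
      if (p : ℤ) ∣ (i : ℤ) then 0 else if (p : ℤ) ∣ (i : ℤ) + α then 1
        else if (p : ℤ) ∣ M - (i : ℤ) then 2 else 3
    obtain ⟨i, j, hij, hc⟩ := Fintype.exists_ne_map_eq_of_card_lt c (by simp)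
    have hprop : ∀ i : Fin 5, (c i = 0 → (p : ℤ) ∣ (i : ℤ)) ∧ (c i = 1 → (p : ℤ) ∣ (i : ℤ) + α) ∧
        (c i = 2 → (p : ℤ) ∣ M - (i : ℤ)) ∧ (c i = 3 → (p : ℤ) ∣ M - (i : ℤ) + β) := by
      intro i
      by_cases h0 : (p : ℤ) ∣ (i : ℤ)
      · have : c i = 0 := if_pos h0
        rw [this]
        exact ⟨fun _ => h0, fun h => absurd h (by decide), fun h => absurd h (by decide),
          fun h => absurd h (by decide)⟩
      by_cases h1 : (p : ℤ) ∣ (i : ℤ) + α
      · have : c i = 1 := by simp only [c, if_neg h0, if_pos h1]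
        rw [this]
        exact ⟨fun h => absurd h (by decide), fun _ => h1, fun h => absurd h (by decide),
          fun h => absurd h (by decide)⟩
      by_cases h2 : (p : ℤ) ∣ M - (i : ℤ)
      · have : c i = 2 := by simp only [c, if_neg h0, if_neg h1, if_pos h2]
        rw [this]
        exact ⟨fun h => absurd h (by decide), fun h => absurd h (by decide), fun _ => h2,
          fun h => absurd h (by decide)⟩
      · have : c i = 3 := by simp only [c, if_neg h0, if_neg h1, if_neg h2]
        rw [this]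
        refine ⟨fun h => absurd h (by decide), fun h => absurd h (by decide),
          fun h => absurd h (by decide), fun _ => ?_⟩
        rcases hcls i with h | h | h | h
        · exact absurd h h0
        · exact absurd h h1
        · exact absurd h h2
        · exact h
    have hdiff : (p : ℤ) ∣ (i : ℤ) - (j : ℤ) := by
      obtain ⟨a0, a1, a2, a3⟩ := hprop i
      obtain ⟨b0, b1, b2, b3⟩ := hprop j
      have hci : c i = 0 ∨ c i = 1 ∨ c i = 2 ∨ c i = 3 := by
        generalize c i = z
        fin_cases z <;> simp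
      rcases hci with h | h | h | h
      · exact dvd_sub (a0 h) (b0 (hc ▸ h))
      · have := dvd_sub (a1 h) (b1 (hc ▸ h))
        ring_nf at this ⊢
        exact this
      · have := dvd_sub (b2 (hc ▸ h)) (a2 h)
        ring_nf at this ⊢
        exact this
      · have := dvd_sub (b3 (hc ▸ h)) (a3 h)
        ring_nf at this ⊢
        exact this
    have hne : (i : ℤ) - (j : ℤ) ≠ 0 := by
      intro h
      apply hij
      apply Fin.ext
      omega
    have hle := Int.le_of_dvd (abs_pos.2 hne) ((dvd_abs _ _).2 hdiff)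
    have h6 : |(i : ℤ) - (j : ℤ)| ≤ 4 := by
      rw [abs_le]
      have := i.2
      have := j.2
      omega
    omega

/-- **Clusters of representations of every large even number by almost twin primes.** Let `m ≥ 1`. There are `K`, `B`
and `δ > 0` such that for every `A` there is an `r` such that for every finite set `T` of at least `K` nonnegative
integers and all large even `M` the following holds for all `α, β ∈ {2, -2}` with `M ≡ α + β (mod 3)` and all `N` with
`M ^ (1 / A) ≤ N`, `2 N + 2 < M`: for at least the proportion `1 / K` of the subsets `H` of `T` with `m` elements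
there are at least `N / (log N) ^ B` integers `x`, `N < x`, `x + max H ≤ 2 N`, such that for all `h ∈ H` the number
`p = x + h` is a prime and `p + α`, `M - p` and `M - p + β` are positive and have at most `r` prime factors, all of
them at least `N ^ δ`. (For every even `M` there are such `α`, `β`.) -/
theorem result (m : ℕ) (hm : 1 ≤ m) :
    (∃ (K B : ℕ) (δ : ℝ), 0 < K ∧ 0 < δ ∧ ∀ A : ℕ, ∃ r : ℕ, ∀ T : Finset ℕ, K ≤ T.card →
      ∀ᶠ M : ℕ in atTop, Even M → ∀ α β : ℤ, (α = 2 ∨ α = -2) → (β = 2 ∨ β = -2) →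
      (3 : ℤ) ∣ M - (α + β) → ∀ N : ℕ, M ≤ N ^ A → 2 * N + 2 < M →
      T.card.choose m ≤ K * {H : Finset ℕ | H ⊆ T ∧ H.card = m ∧
        (N : ℝ) / Real.log N ^ B ≤ (places M N r α β δ H).ncard}.ncard) ∧
    ∀ M : ℕ, ∃ α β : ℤ, (α = 2 ∨ α = -2) ∧ (β = 2 ∨ β = -2) ∧ (3 : ℤ) ∣ M - (α + β) := by
  classical
  refine ⟨?_, fun M => ?_⟩
  swap
  · have h : (M : ℤ) % 3 = 0 ∨ (M : ℤ) % 3 = 1 ∨ (M : ℤ) % 3 = 2 := by omega
    rcases h with h | h | h
    · exact ⟨2, -2, Or.inl rfl, Or.inr rfl, by omega⟩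
    · exact ⟨2, 2, Or.inl rfl, Or.inl rfl, by omega⟩
    · exact ⟨-2, -2, Or.inr rfl, Or.inr rfl, by omega⟩
  obtain ⟨K, B, δ, hK, hδ, hmain⟩ := Pool.Agent.U163.SU.uniU_prod 3 1 1 squarefree_one m hm
  refine ⟨K, B, δ, hK, hδ, fun A => ?_⟩
  obtain ⟨r, hr⟩ := hmain (A + 4)
  refine ⟨r, fun T hT => ?_⟩
  obtain ⟨N₀, hN₀⟩ := eventually_atTop.1 (hr T hT)
  filter_upwards [eventually_ge_atTop ((N₀ + 3) ^ A + 1)] with M hM
  intro hMe α β hα hβ h3 N hMN h2N
  have hNbig : N₀ + 3 ≤ N := by
    by_contra hcon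
    push Not at hcon
    have := Nat.pow_le_pow_left hcon.le A
    omega
  have hN3 : (3 : ℤ) ≤ N := by exact_mod_cast (by omega : 3 ≤ N)
  have hbd : ∀ i, ∀ x : ℤ, |x| ≤ 2 * N → |(fam M α β i).eval x| ≤ (N : ℤ) ^ (A + 4) := by
    have hM' : (M : ℤ) ≤ (N : ℤ) ^ A := by exact_mod_cast hMN
    have h1 : (1 : ℤ) ≤ (N : ℤ) ^ A := one_le_pow₀ (by linarith)
    have h4 : (2 : ℤ) * N + 3 ≤ (N : ℤ) ^ 4 := by
      have h5 : (27 : ℤ) ≤ (N : ℤ) ^ 3 := by
        calc (27 : ℤ) = 3 ^ 3 := by norm_num
          _ ≤ (N : ℤ) ^ 3 := by gcongr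
      calc (2 : ℤ) * N + 3 ≤ 27 * N := by linarith
        _ ≤ (N : ℤ) ^ 3 * N := by gcongr
        _ = (N : ℤ) ^ 4 := by ring
    have hgen : ∀ z : ℤ, |z| ≤ (N : ℤ) ^ A + 2 * N + 2 → |z| ≤ (N : ℤ) ^ (A + 4) := by
      intro z hz
      calc |z| ≤ (N : ℤ) ^ A + 2 * N + 2 := hz
        _ ≤ (N : ℤ) ^ A * (2 * N + 3) := by nlinarith
        _ ≤ (N : ℤ) ^ A * (N : ℤ) ^ 4 := by gcongr
        _ = (N : ℤ) ^ (A + 4) := by rw [pow_add]
    intro i x hx
    apply hgen
    have hx' := abs_le.1 hx
    have hM0 : (0 : ℤ) ≤ M := by positivity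
    fin_cases i
    · change |(fam M α β 0).eval x| ≤ _
      rw [fam_eval0, abs_le]
      rcases hα with rfl | rfl <;> constructor <;> linarith [hx'.1, hx'.2]
    · change |(fam M α β 1).eval x| ≤ _
      rw [fam_eval1, abs_le]
      constructor <;> linarith [hx'.1, hx'.2]
    · change |(fam M α β 2).eval x| ≤ _
      rw [fam_eval2, abs_le]
      rcases hβ with rfl | rfl <;> constructor <;> linarith [hx'.1, hx'.2]
  refine (hN₀ N (by omega) (fam M α β) (fam_deg M α β)
    (fun p hp => fam_adm M hMe α β hα hβ h3 p hp) hbd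
    1 (fun p hp hp1 => absurd (Nat.dvd_one.1 hp1) hp.one_lt.ne')).trans (Nat.mul_le_mul_left _ ?_)
  have heq : ∀ H, Pool.Agent.U163.SU.clusters (fam M α β) N 1 1 r δ H ⊆
      places M N r α β δ H := by
    rintro H x ⟨h1, h2, h4⟩
    refine ⟨h1, h2, fun h hh => ⟨(h4 h hh).1, ?_⟩⟩
    have h6 : h ≤ H.sup id := Finset.le_sup (f := id) hh
    have h5 := (h4 h hh).2.2
    have h50 := (h5 0).2
    have h51 := (h5 1).2
    have h52 := (h5 2).2
    rw [fam_eval0] at h50
    rw [fam_eval1] at h51
    rw [fam_eval2] at h52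
    rintro z (rfl | rfl | rfl)
    · exact ⟨by rcases hα with rfl | rfl <;> (push_cast; omega), h50⟩
    · exact ⟨by push_cast; omega, h51⟩
    · exact ⟨by rcases hβ with rfl | rfl <;> (push_cast; omega), h52⟩
  have hfin : ∀ P : Finset ℕ → Prop, {H : Finset ℕ | H ⊆ T ∧ H.card = m ∧ P H}.Finite := by
    intro P
    apply (T.powersetCard m).finite_toSet.subset
    rintro H ⟨h1, h2, -⟩
    exact Finset.mem_coe.2 (Finset.mem_powersetCard.2 ⟨h1, h2⟩)
  apply Set.ncard_le_ncard _ (hfin _)
  rintro H ⟨h1, h2, h4⟩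
  refine ⟨h1, h2, h4.trans (Nat.cast_le.2 (Set.ncard_le_ncard (heq H) ?_))⟩
  refine (Set.finite_Iic (2 * N)).subset fun y hy => ?_
  have h1 : y + H.sup id ≤ 2 * N := hy.2.1
  rw [Set.mem_Iic]
  omega

end Pool.Agent.Results.MP_c6d112_nt.ClustersOfTwins
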