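import Pool.Agent.U847.XI
import Pool.Agent.U847.XW
import Pool.Agent.U847.XJ
import Pool.Agent.N625.PT.X16
import Pool.Agent.N625.PT.X8

/-!
# Almost all even `n ≤ X`: the number of the representations `n = p + q` as a sum of two primes such that `p + N_0` and
`q + N_1` are prime too, for multiples `N_0`, `N_1` of integers whose digits label walks in infinite graphs

The even numbers `N_j = h_j M (c_j + κ_j v_j)`, where `M` is the product of the primes `≤ y` and `v_j` runs over the integers whose `d` digits are the labels of the walks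
between two vertices of a graph, for example of the Cayley graph of a group: then these are the integers whose digits spell
a given element of the group. Such a set can contain as few as `N ^ ε` integers below `N`, and in general it is not
automatic.

From Mathlib: `primorial y`: the product of the primes `≤ y`; `Finset.Icc 1 X`: the integers from `1` to `X`;
`Finset.range (n + 1)`: the integers from `0` to `n`; `Fintype.piFinset S`: the vectors `v` with `v j ∈ S j`.

Method: the exponential sum over the walks is dominated by the iterates of the adjacency operator of the graph, which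
loses a constant factor at every digit where the frequency is not extremal (starting files, `Pool.Agent.N625.GW`). New here:
this decay is exponential in the number of these digits for all the fractions with a denominator free of small primes
(`Pool.Agent.U847.XC`), it gives the sieve with error terms smaller than all powers of `d` (`Pool.Agent.U847.XD`), the second
moment and the number of the primes in random translates of dense sequences (`Pool.Agent.U847.XG`) and the case of several
translates (`Pool.Agent.U847.XH`, `Pool.Agent.U847.XI`). The proofs of these steps are those of the starting files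
`Pool.Agent.N625.PT.X2` - `X15` (integers with exchangeable blocks of digits), with the class of distributions replaced.
-/

set_option autoImplicit false

namespace Pool.Agent.Results.MP_c6d112_nt.WalkTwins

open Finset

/-- The digits `a < b` act on the set `X` of the vertices: an edge with the label `a` leads from `x` to `y` if
`δ x a = some y` (at most one edge with the label `a` starts at `x`). The number of the edges from `x` to `y` equals the
number of the edges from `y` to `x`, and at least two edges start at every vertex. The graph may be infinite. -/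
structure Graph {X : Type} (b : ℕ) (δ : X → ℕ → Option X) : Prop where
  symm : ∀ x y : X, {a : ℕ | a < b ∧ δ x a = some y}.ncard = {a : ℕ | a < b ∧ δ y a = some x}.ncard
  two : ∀ x : X, ∃ a a' : ℕ, a < a' ∧ a' < b ∧ (δ x a).isSome ∧ (δ x a').isSome

open Classical in
/-- The integers `v < b ^ k` whose `k` digits in base `b`, from the most significant to the least significant one (the
digit number `i`, `0 ≤ i < k`, from the left is `v / b ^ (k - 1 - i) % b`), are the labels of a walk from `x` to `y`. -/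
noncomputable def walks {X : Type} (b : ℕ) (δ : X → ℕ → Option X) (k : ℕ) (x y : X) : Finset ℕ :=
  (range (b ^ k)).filter fun v =>
    ((List.range k).map fun i => v / b ^ (k - 1 - i) % b).foldl (fun s a => s.bind fun z => δ z a) (some x) = some y

/-- the product of `1 - 1/q` over the primes `q ≤ y` -/
noncomputable def V (y : ℕ) : ℝ := ∏ q ∈ (Icc 1 y).filter Nat.Prime, (1 - 1 / (q : ℝ))

/-- the multiple of the product of the primes `≤ y` given by the integers `h` and `c + κ v` -/
def Nv (y h : ℕ) (c κ : ℤ) (v : ℕ) : ℤ := ((primorial y * h : ℕ) : ℤ) * (c + κ * v)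

/-- the primes `p ≤ n` with `n - p` prime: the (ordered) representations of `n` as a sum of two primes -/
def Gold (n : ℕ) : Finset ℕ := (range (n + 1)).filter (fun p : ℕ => p.Prime ∧ (n - p).Prime)

/-- the representations `n = p + q` as a sum of two primes such that `p + N` and `q + N'` are prime too -/
def Twins (n : ℕ) (N N' : ℤ) : Finset ℕ :=
  (Gold n).filter (fun p : ℕ => (N + (p : ℕ)).toNat.Prime ∧ (N' + (n - p : ℕ)).toNat.Prime)

/-- `n` has at least `n / log ^ 2 n` representations as a sum of two primes, and if `N, N' > 0` then the number of those with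
`p + N` and `q + N'` prime is `#Gold / L ^ 2` up to a relative error of at most `ε` -/
def Fine (ε L : ℝ) (n : ℕ) (N N' : ℤ) : Prop :=
  (n : ℝ) / Real.log n ^ 2 ≤ (Gold n).card ∧ (0 < N → 0 < N' →
    |((Twins n N N').card : ℝ) - (Gold n).card / L ^ 2| ≤ ε * ((Gold n).card / L ^ 2))

lemma gold_inj (n : ℕ) : Set.InjOn (fun p => n - p) (Gold n : Finset ℕ) := by
  intro a ha b hb hab
  unfold Gold at ha hb
  rw [mem_coe, mem_filter, mem_range] at ha hb
  simp only at hab
  omega

lemma walks_eq {X : Type} (b : ℕ) (δ : X → ℕ → Option X) (k : ℕ) (x y : X) :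
    walks b δ k x y = Pool.Agent.N625.GW.walks b δ k x y := rfl

open Classical in
/-- the law for classes of distributions -/
theorem main (b q₀ : ℕ) (hb : 2 ≤ b) (Cl : Fin 2 → ℕ → (ℕ → ℝ) → Prop) (hC : ∀ j, Pool.Agent.U847.XP.SCls b q₀ (Cl j))
    (κ : Fin 2 → ℤ) (hκ : ∀ j, κ j ≠ 0) (B J C K₁ : ℕ) (θ : ℝ) (hθ : 0 < θ) (ε : ℝ) (hε : 0 < ε) (hε1 : ε ≤ 1) :
    ∃ d₀ : ℕ, ∀ d : ℕ, d₀ ≤ d → ∀ μ : Fin 2 → ℕ → ℝ, (∀ j, Cl j d (μ j)) →
    ∀ y : ℕ, θ * Real.log d ≤ y → y ≤ K₁ * Real.log d → ∀ c : Fin 2 → ℤ, (∀ j, |c j| ≤ B * (b : ℤ) ^ d) →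
    ∀ h : Fin 2 → ℕ, (∀ j, 1 ≤ h j ∧ h j ≤ d ^ J) → ∀ X : ℕ, b ^ d ≤ X * d ^ C → X ≤ b ^ d * d ^ C →
      ∑ v ∈ Fintype.piFinset (fun _ : Fin 2 => range (b ^ d)), (if ((((Icc 1 X).filter (fun n : ℕ => Even n ∧ ¬ Fine ε (V y * (d * Real.log b)) n (Nv y (h 0) (c 0) (κ 0) (v 0))
          (Nv y (h 1) (c 1) (κ 1) (v 1)))).card : ℝ) ≤ ε * X)
        then 0 else ∏ j, μ j (v j)) ≤ ε := by
  classical
  have hε2 : ε ^ 2 / 2 ≤ ε := by nlinarith
  obtain ⟨k₀, h0⟩ := Pool.Agent.U847.XP.pair_f b q₀ hb Cl hC κ hκ B J 4 (C + 1) K₁ θ hθ (ε ^ 2 / 2) (by positivity) (by linarith)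
  obtain ⟨k₁, h1⟩ := Pool.Agent.N625.PT.X_large b C hb
  obtain ⟨k₂, h2⟩ := Pool.Agent.N625.PT.log_X b (C + 1) hb
  obtain ⟨k₃, h3⟩ := Pool.Agent.N625.PT.log_low b C hb
  obtain ⟨X₀, h4⟩ := Pool.Agent.U847.XJ.gold_dense
  obtain ⟨k₅, h5⟩ := exists_nat_ge (16 / ε ^ 2)
  refine ⟨max (max k₀ k₁) (max (max k₂ k₃) (max X₀ (max k₅ 3))), fun d hd μ hμ y hy1 hy2 c hc h hh X hX1 hX2 => ?_⟩
  have b0 : 3 ≤ d := by omega
  have hdr : (3 : ℝ) ≤ d := by exact_mod_cast b0
  have hd0 : (0 : ℝ) < d := by linarith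
  have hdX := h1 d (by omega) X hX1
  have hXr : (3 : ℝ) ≤ X := by exact_mod_cast (by omega : 3 ≤ X)
  have hlX := h3 d (by omega) X hX1
  have hXX := h4 X (by omega)
  have hd5 : 16 / ε ^ 2 ≤ d := h5.trans (by exact_mod_cast (by omega : k₅ ≤ d))
  have hd6 : 16 ≤ ε ^ 2 * d := by
    rw [div_le_iff₀ (by positivity)] at hd5
    linarith
  have hVy : 0 < V y := Pool.Agent.H373R2.T7.Vz_pos y
  have hlogb : 0 < Real.log b := Real.log_pos (by exact_mod_cast (by omega : 1 < b))
  obtain ⟨L, hL⟩ : ∃ L : ℝ, L = V y * (d * Real.log b) := ⟨_, rfl⟩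
  have hL0 : 0 < L := by rw [hL]; positivity
  obtain ⟨E, hE⟩ : ∃ E : Finset ℕ, E = (Icc 1 X).filter (fun n : ℕ => Even n ∧ ((Pool.Agent.U847.XJ.Gold n).card : ℝ) < n / Real.log n ^ 2) ∪
    Icc 1 (X / d) := ⟨_, rfl⟩
  have hEc : (E.card : ℝ) ≤ ε ^ 2 / 2 * X := by
    have e1 : (E.card : ℝ) ≤ X / Real.log X + X / d := by
      rw [hE]
      have e2 := card_union_le ((Icc 1 X).filter (fun n : ℕ => Even n ∧ ((Pool.Agent.U847.XJ.Gold n).card : ℝ) < n / Real.log n ^ 2)) (Icc 1 (X / d))
      rw [Nat.card_Icc, Nat.add_sub_cancel] at e2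
      have e3 : ((((Icc 1 X).filter (fun n : ℕ => Even n ∧ ((Pool.Agent.U847.XJ.Gold n).card : ℝ) < n / Real.log n ^ 2) ∪ Icc 1 (X / d)).card : ℕ) : ℝ) ≤
          (((Icc 1 X).filter (fun n : ℕ => Even n ∧ ((Pool.Agent.U847.XJ.Gold n).card : ℝ) < n / Real.log n ^ 2)).card : ℝ) + ((X / d : ℕ) : ℝ) := by
        exact_mod_cast e2
      have e4 : ((X / d : ℕ) : ℝ) ≤ X / d := Nat.cast_div_le
      linarith
    have e5 : (X : ℝ) / Real.log X ≤ 4 * X / d := by
      rw [div_le_div_iff₀ (by linarith) hd0]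
      nlinarith
    have e6 : (4 * X / d : ℝ) + X / d ≤ ε ^ 2 / 2 * X := by
      have : (4 * X / d : ℝ) + X / d = 5 * X / d := by ring
      rw [this, div_le_iff₀ hd0]
      nlinarith
    linarith
  have hw0 : ∀ v : Fin 2 → ℕ, 0 ≤ ∏ j, μ j (v j) := fun v => prod_nonneg fun j _ => (hC j).nonneg _ _ (hμ j) _
  have hsum := Pool.Agent.U847.XJ.prod_sum b d μ (fun j => (hC j).sum _ _ (hμ j))
  refine le_trans (le_of_eq ?_) (Pool.Agent.U847.XJ.markov _ (fun v : Fin 2 → ℕ => ∏ j, μ j (v j)) hw0 hsum.le (Icc 1 X) E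
    (fun n v => Even n ∧ ¬ Fine ε (V y * (d * Real.log b)) n (Nv y (h 0) (c 0) (κ 0) (v 0)) (Nv y (h 1) (c 1) (κ 1) (v 1)))
    (ε ^ 2 / 2 * X) (ε ^ 2 / 2) (ε * X) ε hEc (by positivity) (fun n hn hnE => ?_) (by positivity) ?_)
  · apply sum_congr rfl
    intro v _
    congr!
  · rw [hE, mem_union, mem_filter, not_or] at hnE
    obtain ⟨g1, g2⟩ := hnE
    rw [mem_Icc] at hn g2
    by_cases hev : Even n
    · have g3 : (n : ℝ) / Real.log n ^ 2 ≤ (Gold n).card := by
        by_contra hcon
        exact g1 ⟨mem_Icc.2 hn, hev, not_le.1 hcon⟩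
      have g4 : X < n * d := by
        have : X / d < n := by omega
        exact (Nat.div_lt_iff_lt_mul (by omega)).1 this
      have hn1 : b ^ d ≤ n * d ^ (C + 1) := by
        refine hX1.trans ?_
        rw [pow_succ', ← mul_assoc]
        exact Nat.mul_le_mul_right _ g4.le
      have hn2 : n ≤ b ^ d * d ^ (C + 1) := by
        refine hn.2.trans (hX2.trans (Nat.mul_le_mul_left _ (Nat.pow_le_pow_right (by omega) (by omega))))
      have hlog := h2 d (by omega) n hn2
      have hl0 : 0 ≤ Real.log n := Real.log_natCast_nonneg n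
      have hn3 : 2 ≤ n := by
        obtain ⟨m, hm⟩ := hev
        omega
      have hlp : 0 < Real.log n := Real.log_pos (by exact_mod_cast (by omega : 1 < n))
      have hGd : (n : ℝ) ≤ (Gold n).card * (d : ℝ) ^ 4 := by
        rw [div_le_iff₀ (by positivity)] at g3
        refine g3.trans (mul_le_mul_of_nonneg_left ?_ (Nat.cast_nonneg _))
        calc Real.log n ^ 2 ≤ ((d : ℝ) ^ 2) ^ 2 := pow_le_pow_left₀ hl0 hlog _
          _ = (d : ℝ) ^ 4 := by rw [← pow_mul]
      have hmem : ∀ p ∈ Gold n, p ≤ n ∧ p.Prime ∧ (n - p).Prime := by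
        intro p hp
        unfold Gold at hp
        rw [mem_filter, mem_range] at hp
        exact ⟨by omega, hp.2⟩
      have h6 := h0 d (by omega) μ hμ y hy1 hy2 c hc h hh n hn1 hn2 (Gold n) (fun p => p) (fun p => n - p)
        (fun a _ b _ hab => hab) (gold_inj n)
        (fun p hp => ⟨(hmem p hp).2.1.pos, (hmem p hp).1, Or.inr (hmem p hp).2.1⟩)
        (fun p hp => ⟨(hmem p hp).2.2.pos, Nat.sub_le _ _, Or.inr (hmem p hp).2.2⟩) hGd
      refine le_trans (sum_le_sum fun v _ => ?_) h6
      split_ifs with q1 q2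
      · exfalso
        apply q1.2
        refine ⟨g3, fun p1 p2 => ?_⟩
        have q3 := q2 (by
          intro j
          fin_cases j
          · exact p1
          · exact p2)
        refine le_trans (le_of_eq ?_) (q3.trans (mul_le_mul_of_nonneg_right hε2 ?_))
        · unfold Twins
          congr!
        · exact div_nonneg (Nat.cast_nonneg _) (sq_nonneg _)
      · exact le_rfl
      · exact le_rfl
      · exact hw0 v
    · refine le_trans (le_of_eq (sum_eq_zero fun v _ => ?_)) (by positivity)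
      rw [if_neg (fun hh => hev hh.1)]
  · rw [Nat.card_Icc, Nat.add_sub_cancel]
    linarith [sq_nonneg ε]

open Classical in
/-- Let `δ j` be graphs (infinite or not) whose edges are labelled with the digits in base `b`, let `u j` be a vertex of the
graph `δ j`, and let `ρ j > 0` be such that there are at most `ρ j ^ (2 n)` closed walks of the length `2 n` at `u j`, for
all `n`. Let `D` be fixed, let `d` be large and let `z j` be vertices such that the number of the walks of the length `d`
from `u j` to `z j` is at least `ρ j ^ d / d ^ D`. Let `κ j ≠ 0` for `j < 2`, `B`, `J`, `C`, `K₁`, `θ > 0` and `0 < ε ≤ 1` be fixed, let `y` be between `θ log d` and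
`K₁ log d` (`θ > 0` is arbitrary), `M` the product of the primes `≤ y`, `|c j| ≤ B b ^ d`, `1 ≤ h j ≤ d ^ J`,
`N_j = M h_j (c_j + κ_j v_j)`, and let `X` be any integer with `b ^ d ≤ X d ^ C`, `X ≤ b ^ d d ^ C`. Then for all the vectors `v` such that the `d` digits of `v j` in base `b` are the labels of a walk from `u j` to `z j`, with
the exception of a proportion of at most `ε` of these vectors: all the even
`n ≤ X` with at most `ε X` exceptions have at least `n / log ^ 2 n` representations `n = p + q` as a sum of two primes, and if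
`N_0, N_1 > 0`, then the number of the representations `n = p + q` such that `p`, `q`, `p + N_0` and `q + N_1` are all prime
differs from `E = G / (V y log b ^ d) ^ 2`, where `G` is the number of all the representations of `n` as a sum of two primes,
by at most `ε E`.

(For a group of polynomial growth, a free group, or any group with the property of rapid decay, there are at least
`ρ ^ d / d ^ D` closed walks of every even length `d` in the Cayley graph, where `ρ` is its spectral radius.) -/
theorem result (b : ℕ) (X : Fin 2 → Type) (δ : ∀ j, X j → ℕ → Option (X j)) (hG : ∀ j, Graph b (δ j)) (u : ∀ j, X j)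
    (ρ : Fin 2 → ℝ) (hρ : ∀ j, 0 < ρ j)
    (hR : ∀ j, ∀ n : ℕ, ((walks b (δ j) (2 * n) (u j) (u j)).card : ℝ) ≤ ρ j ^ (2 * n))
    (κ : Fin 2 → ℤ) (hκ : ∀ j, κ j ≠ 0) (D : ℕ) (B J C K₁ : ℕ) (θ : ℝ) (hθ : 0 < θ) (ε : ℝ) (hε : 0 < ε) (hε1 : ε ≤ 1) :
    ∃ d₀ : ℕ, ∀ d : ℕ, d₀ ≤ d → ∀ z : ∀ j, X j, (∀ j, ρ j ^ d / (d : ℝ) ^ D ≤ (walks b (δ j) d (u j) (z j)).card) →
    ∀ y : ℕ, θ * Real.log d ≤ y → y ≤ K₁ * Real.log d → ∀ c : Fin 2 → ℤ, (∀ j, |c j| ≤ B * (b : ℤ) ^ d) →
    ∀ h : Fin 2 → ℕ, (∀ j, 1 ≤ h j ∧ h j ≤ d ^ J) → ∀ X : ℕ, b ^ d ≤ X * d ^ C → X ≤ b ^ d * d ^ C →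
      (((Fintype.piFinset fun j => walks b (δ j) d (u j) (z j)).filter fun v => ¬ ((((Icc 1 X).filter (fun n : ℕ => Even n ∧ ¬ Fine ε (V y * (d * Real.log b)) n (Nv y (h 0) (c 0) (κ 0) (v 0))
          (Nv y (h 1) (c 1) (κ 1) (v 1)))).card : ℝ) ≤ ε * X)).card : ℝ) ≤
        ε * (Fintype.piFinset fun j => walks b (δ j) d (u j) (z j)).card := by
  have hG' : ∀ j, Pool.Agent.N625.GW.Graph b (δ j) := fun j => ⟨(hG j).symm, (hG j).two⟩
  have hb : 2 ≤ b := Pool.Agent.N625.GW.two_le (hG' 0) (u 0)
  obtain ⟨d₀, h0⟩ := main b _ hb (fun j => Pool.Agent.N625.GW.WC b (δ j) (u j) (ρ j) D)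
    (fun j => Pool.Agent.U847.XP.w_scls (hG' j) (u j) (ρ j) (hρ j) (hR j) D) κ hκ B J C K₁ θ hθ ε hε hε1
  refine ⟨d₀ + 1, fun d hd z hz y hy1 hy2 c hc h hh X hX1 hX2 => ?_⟩
  have hd1 : 1 ≤ d := by omega
  have key := Pool.Agent.U847.XW.w_nums hρ hd1 hz (fun v : Fin 2 → ℕ => ((((Icc 1 X).filter (fun n : ℕ => Even n ∧ ¬ Fine ε (V y * (d * Real.log b)) n (Nv y (h 0) (c 0) (κ 0) (v 0))
          (Nv y (h 1) (c 1) (κ 1) (v 1)))).card : ℝ) ≤ ε * X)) (ε := ε)
    (fun p hp => by
      refine le_trans (le_of_eq ?_) (h0 d (by omega) p hp y hy1 hy2 c hc h hh X hX1 hX2)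
      apply sum_congr rfl
      intro v _
      congr!)
  simp only [walks_eq]
  refine le_trans (le_of_eq ?_) key
  congr!

end Pool.Agent.Results.MP_c6d112_nt.WalkTwins
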