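import Pool.Agent.U832.RG.TupAux

/-!
# The representations of EVERY large even `n` by two twin almost primes: a Poisson process

A number `m` is a twin almost prime of the type `a ∈ {2, -2}` if neither `m` nor `m + a` has a prime factor
`≤ n ^ (1 / r)`. For every even `n` there are `a, b ∈ {2, -2}` with `n ≡ a + b (mod 3)`, and for EVERY large even `n`
and all such `a, b` the `m` for which `m` is a twin almost prime of the type `a` and `n - m` one of the type `b` have
the expected number in all intervals of length `≥ n ^ θ`, and they form a Poisson process: the numbers of such `m` in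
disjoint windows, seen from an arbitrary such `m` or from an arbitrary integer, are independent Poisson variables.
-/

set_option autoImplicit false

namespace Pool.Agent.Results.MP_c6d112_nt.PoissonRepresentations

open Finset Filter Pool.Agent.U832.RG

/-- No prime `p ≤ y` divides `z`. -/
def NoSmall (y : ℕ) (z : ℤ) : Prop := ∀ p : ℕ, p.Prime → p ≤ y → ¬ (p : ℤ) ∣ z

/-- Neither `z` nor `z + a` has a prime factor `≤ y`. -/
def Twin (a : ℤ) (y : ℕ) (z : ℤ) : Prop := NoSmall y z ∧ NoSmall y (z + a)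

/-- The `m` for which `m` is a twin almost prime of the type `a` and `n - m` one of the type `b`. -/
def Rep (a b : ℤ) (n y : ℕ) : Set ℕ := {m | Twin a y m ∧ Twin b y (n - m)}

open Classical in
/-- The number of the `m` modulo `p` for which `p` divides `m (m + a) (n - m) (n - m + b)`. -/
noncomputable def w (a b : ℤ) (n p : ℕ) : ℕ :=
  ((range p).filter (fun m : ℕ => (p : ℤ) ∣ m * (m + a) * (n - m) * (n - m + b))).card

/-- The product of `1 - w p / p` over the primes `p ≤ y`. -/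
noncomputable def V (a b : ℤ) (n y : ℕ) : ℝ := ∏ p ∈ (Icc 1 y).filter Nat.Prime, (1 - (w a b n p : ℝ) / p)

/-- The types for `n`. -/
def Types (n : ℕ) (a b : ℤ) : Prop := (a = 2 ∨ a = -2) ∧ (b = 2 ∨ b = -2) ∧ (n : ℤ) ≡ a + b [ZMOD 3]

/-- the shifts -/
def HH (a b : ℤ) (n : ℕ) : Finset ℤ := {0, a, -(n : ℤ), -((n : ℤ) + b)}

lemma mem_HH (a b : ℤ) (n : ℕ) (h : ℤ) : h ∈ HH a b n ↔ h = 0 ∨ h = a ∨ h = -(n : ℤ) ∨ h = -((n : ℤ) + b) := by
  unfold HH
  simp only [mem_insert, mem_singleton]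

lemma dvd_iff (a b : ℤ) (n p m : ℕ) : (∃ h ∈ HH a b n, (p : ℤ) ∣ (m : ℤ) + h) ↔
    ((p : ℤ) ∣ m ∨ (p : ℤ) ∣ m + a ∨ (p : ℤ) ∣ n - m ∨ (p : ℤ) ∣ n - m + b) := by
  constructor
  · rintro ⟨h, hh, hd⟩
    rcases (mem_HH a b n h).1 hh with rfl | rfl | rfl | rfl
    · left; rwa [add_zero] at hd
    · right; left; exact hd
    · right; right; left
      rw [← dvd_neg]
      rwa [show -((n : ℤ) - m) = (m : ℤ) + -(n : ℤ) by ring]
    · right; right; right
      rw [← dvd_neg]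
      rwa [show -((n : ℤ) - m + b) = (m : ℤ) + -((n : ℤ) + b) by ring]
  · rintro (hd | hd | hd | hd)
    · exact ⟨0, (mem_HH a b n _).2 (Or.inl rfl), by rwa [add_zero]⟩
    · exact ⟨a, (mem_HH a b n _).2 (Or.inr (Or.inl rfl)), hd⟩
    · refine ⟨-(n : ℤ), (mem_HH a b n _).2 (Or.inr (Or.inr (Or.inl rfl))), ?_⟩
      rw [← dvd_neg]
      rwa [show -((m : ℤ) + -(n : ℤ)) = (n : ℤ) - m by ring]
    · refine ⟨-((n : ℤ) + b), (mem_HH a b n _).2 (Or.inr (Or.inr (Or.inr rfl))), ?_⟩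
      rw [← dvd_neg]
      rwa [show -((m : ℤ) + -((n : ℤ) + b)) = (n : ℤ) - m + b by ring]

lemma rep_eq (a b : ℤ) (n y : ℕ) : RoughT (HH a b n) y = Rep a b n y := by
  ext m
  have key : m ∈ RoughT (HH a b n) y ↔ ∀ p : ℕ, p.Prime → p ≤ y → ¬ ∃ h ∈ HH a b n, (p : ℤ) ∣ (m : ℤ) + h := by
    constructor
    · rintro h p hp hpy ⟨e, he, hd⟩
      exact h p hp hpy e he hd
    · intro h p hp hpy e he hd
      exact h p hp hpy ⟨e, he, hd⟩
  rw [key]
  constructor
  · intro h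
    refine ⟨⟨fun p hp hpy hd => ?_, fun p hp hpy hd => ?_⟩, fun p hp hpy hd => ?_, fun p hp hpy hd => ?_⟩
    · exact h p hp hpy ((dvd_iff a b n p m).2 (Or.inl hd))
    · exact h p hp hpy ((dvd_iff a b n p m).2 (Or.inr (Or.inl hd)))
    · exact h p hp hpy ((dvd_iff a b n p m).2 (Or.inr (Or.inr (Or.inl hd))))
    · exact h p hp hpy ((dvd_iff a b n p m).2 (Or.inr (Or.inr (Or.inr hd))))
  · rintro ⟨⟨h1, h2⟩, h3, h4⟩ p hp hpy h
    rcases (dvd_iff a b n p m).1 h with hd | hd | hd | hd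
    · exact h1 p hp hpy hd
    · exact h2 p hp hpy hd
    · exact h3 p hp hpy hd
    · exact h4 p hp hpy hd

lemma w_eq (a b : ℤ) (n p : ℕ) (hp : p.Prime) : wT (HH a b n) p = w a b n p := by
  classical
  unfold wT w
  congr 1
  ext m
  rw [mem_filter, mem_filter, dvd_iff]
  have hpi : Prime (p : ℤ) := Nat.prime_iff_prime_int.1 hp
  rw [hpi.dvd_mul, hpi.dvd_mul, hpi.dvd_mul, or_assoc, or_assoc]

lemma V_eq (a b : ℤ) (n y : ℕ) : VT (HH a b n) y = V a b n y := by
  unfold VT V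
  apply Finset.prod_congr rfl
  intro p hp
  rw [w_eq a b n p (mem_filter.1 hp).2]

lemma HH_card (a b : ℤ) (n : ℕ) (hn : 5 ≤ n) (h : Types n a b) : (HH a b n).card = 4 := by
  obtain ⟨ha, hb, _⟩ := h
  unfold HH
  rw [card_insert_of_notMem, card_insert_of_notMem, card_insert_of_notMem, card_singleton]
  · simp only [mem_singleton]
    omega
  · simp only [mem_insert, mem_singleton]
    omega
  · simp only [mem_insert, mem_singleton]
    omega

lemma adm (a b : ℤ) (n : ℕ) (hn : 5 ≤ n) (he : Even n) (h : Types n a b) :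
    ∀ p : ℕ, p.Prime → wT (HH a b n) p < p := by
  apply adm_of _ 4 (HH_card a b n hn h).le
  intro p hp hp4
  obtain ⟨ha, hb, h3⟩ := h
  rw [Nat.even_iff] at he
  have h3' : ((n : ℤ) - (a + b)) % 3 = 0 := Int.emod_eq_emod_iff_emod_sub_eq_zero.1 h3
  have hp' : p = 2 ∨ p = 3 := by
    have h2 := hp.two_le
    have h4 : p ≠ 4 := by
      rintro rfl
      exact absurd hp (by norm_num)
    omega
  rcases hp' with rfl | rfl
  · refine ⟨1, fun e he' hd => ?_⟩
    rcases (mem_HH a b n e).1 he' with rfl | rfl | rfl | rfl <;> push_cast at hd <;> omega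
  · refine ⟨a, fun e he' hd => ?_⟩
    rcases (mem_HH a b n e).1 he' with rfl | rfl | rfl | rfl <;> push_cast at hd <;> omega

/-- (1) Every `n` has types: there are `a, b ∈ {2, -2}` with `n ≡ a + b (mod 3)`. Let `θ > 0`.
(2) For all `J`, `L`, `x₀`, all `ε > 0` and all large `r`: for ALL large even `n`, with `y = ⌊n ^ (1 / r)⌋`, all types
`a, b` of `n`, ALL intervals `(Z, Z + Y]` with `Y ≥ n ^ θ` and all `T` with `T V ≤ x₀`, the set `Rep a b n y`
satisfies `PoissonLaw`: for all disjoint windows `(c j, d j] ⊆ (0, T]`, `j < J`, all `s ≤ T` outside of them and all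
`l j ≤ L`, the number of the `m` in `(Z, Z + Y]` with `m + s ∈ Rep a b n y` and exactly `l j` elements of
`Rep a b n y` in `(m + c j, m + d j]` for all `j` is `Y V` times the product of the probabilities that a Poisson
variable of mean `(d j - c j) V` has the value `l j`, up to `ε Y V`; and the same without the condition on `m + s`,
with `Y` instead of `Y V`. (With `J = 0`: the interval contains `(1 + O(ε)) Y V` elements of `Rep a b n y`.) -/
theorem result (θ : ℝ) (hθ : 0 < θ) :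
    (∀ n : ℕ, ∃ a b : ℤ, Types n a b) ∧
    ∀ (J L : ℕ) (x₀ ε : ℝ), 0 < ε → ∃ r₀ : ℕ, ∀ r : ℕ, r₀ ≤ r → ∀ᶠ n : ℕ in atTop, Even n →
      ∀ y : ℕ, y = ⌊(n : ℝ) ^ (1 / (r : ℝ))⌋₊ → ∀ a b : ℤ, Types n a b →
      ∀ Z Y T : ℕ, (n : ℝ) ^ θ ≤ Y → T * V a b n y ≤ x₀ → PoissonLaw (Rep a b n y) (V a b n y) J L ε Z Y T := by
  have bd : ∀ (n : ℕ) (a b : ℤ), 5 ≤ n → Types n a b → ∀ h ∈ HH a b n, |(h : ℝ)| ≤ (n : ℝ) ^ (2 : ℝ) := by
    intro n a b hn h e he
    obtain ⟨ha, hb, _⟩ := h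
    have h1 : |e| ≤ ((n * n : ℕ) : ℤ) := by
      have h2 : n * 5 ≤ n * n := Nat.mul_le_mul_left n hn
      rw [abs_le]
      rcases (mem_HH a b n e).1 he with rfl | rfl | rfl | rfl <;> constructor <;> omega
    rw [Real.rpow_two, sq, ← Int.cast_abs]
    calc ((|e| : ℤ) : ℝ) ≤ (((n * n : ℕ) : ℤ) : ℝ) := by exact_mod_cast h1
      _ = n * n := by push_cast; ring
  obtain ⟨m1, _⟩ := tup_main 4 (by norm_num) 2 θ two_pos hθ
  refine ⟨?_, ?_⟩
  · intro n
    have h3 : (n : ℤ) % 3 = 0 ∨ (n : ℤ) % 3 = 1 ∨ (n : ℤ) % 3 = 2 := by omega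
    rcases h3 with h | h | h
    · exact ⟨2, -2, Or.inl rfl, Or.inr rfl, h⟩
    · exact ⟨2, 2, Or.inl rfl, Or.inl rfl, h⟩
    · exact ⟨-2, -2, Or.inr rfl, Or.inr rfl, h⟩
  · intro J L x₀ ε hε
    obtain ⟨r₀, h⟩ := m1 J L x₀ ε hε
    refine ⟨r₀, fun r hr => ?_⟩
    filter_upwards [h r hr, eventually_ge_atTop 5] with n hn hn5
    intro he y hy a b hab Z Y T hY hT
    have h4 := hn y hy (HH a b n) (HH_card a b n hn5 hab) (bd n a b hn5 hab) (adm a b n hn5 he hab) Z Y T hY
    rw [V_eq, rep_eq] at h4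
    exact h4 hT

end Pool.Agent.Results.MP_c6d112_nt.PoissonRepresentations
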